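import Pool.Agent.MPd14747.Game

/-!
MP_d14747_lc, Q1 (full answer, in the negative).

If `(X, τ) ∈ L` is a topological space in `L` and player II has, in `L`, a winning strategy in the
Rothberger game on `(X, τ)`, then in `V` player II has a winning strategy in the Rothberger game
on `X` with the topology generated by `τ` as a base.  No hypothesis on `V` (existence of
`0`-sharp, PFA, ...) is used.  `V` is Mathlib's universe `ZFSet.{u}` of sets, and
`L = ⋃_o L_o ⊆ V` is the constructible universe; all definitions are in
`Pool/Agent/MPd14747/Defs.lean`.
-/

universe u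

namespace Pool.Agent.Results.MP_d14747_lc.RothbergerLtoV

open Pool.Agent.MPd14747

theorem result (X τ : ZFSet.{u}) (hX : X ∈ L) (hτ : τ ∈ L)
    (htop : IsTopologyIn L X τ)
    (hII : TwoWinsRothbergerIn L X τ) :
    TwoWinsRothbergerIn Set.univ X (generatedTopology X τ) :=
  rothberger_absolute hX hτ htop.1 hII

end Pool.Agent.Results.MP_d14747_lc.RothbergerLtoV
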